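import Mathlib

set_option linter.unusedSectionVars false

namespace Pool.Agent.Q250.PG

open FractionalIdeal Matrix
open scoped nonZeroDivisors LinearAlgebra.Projectivization

variable {R K : Type*} [CommRing R] [IsDedekindDomain R] [Field K] [Algebra R K]
  [IsFractionRing R K]

/-- the fractional ideal `(v₀, v₁)` -/
noncomputable def I (R : Type*) {K : Type*} [CommRing R] [Field K] [Algebra R K]
    [IsFractionRing R K] (v : Fin 2 → K) : FractionalIdeal R⁰ K :=
  spanSingleton R⁰ (v 0) + spanSingleton R⁰ (v 1)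

theorem sing_le {x : K} {J : FractionalIdeal R⁰ K} : spanSingleton R⁰ x ≤ J ↔ x ∈ J :=
  spanSingleton_le_iff_mem

theorem I_le {v : Fin 2 → K} {J : FractionalIdeal R⁰ K} : I R v ≤ J ↔ v 0 ∈ J ∧ v 1 ∈ J := by
  unfold I
  rw [← sup_eq_add, sup_le_iff, sing_le, sing_le]

theorem mem0 (v : Fin 2 → K) : v 0 ∈ I R v := (I_le.1 le_rfl).1
theorem mem1 (v : Fin 2 → K) : v 1 ∈ I R v := (I_le.1 le_rfl).2
theorem memi (v : Fin 2 → K) (i : Fin 2) : v i ∈ I R v := by
  fin_cases i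
  · exact mem0 v
  · exact mem1 v

theorem I_ne {v : Fin 2 → K} (hv : v ≠ 0) : I R v ≠ 0 := by
  intro h
  apply hv
  have h0 := mem0 (R := R) v
  have h1 := mem1 (R := R) v
  rw [h, mem_zero_iff] at h0 h1
  ext i
  fin_cases i
  · exact h0
  · exact h1

theorem I_smul (c : K) (v : Fin 2 → K) : I R (c • v) = spanSingleton R⁰ c * I R v := by
  unfold I
  rw [mul_add, spanSingleton_mul_spanSingleton, spanSingleton_mul_spanSingleton]
  rfl

theorem glsmul (g : GL (Fin 2) K) (v : Fin 2 → K) : g • v = (g : Matrix (Fin 2) (Fin 2) K).mulVec v :=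
  rfl

theorem glsmul_apply (g : GL (Fin 2) K) (v : Fin 2 → K) (i : Fin 2) :
    (g • v) i = g i 0 * v 0 + g i 1 * v 1 := by
  rw [glsmul, Matrix.mulVec, dotProduct, Fin.sum_univ_two]

theorem gl_ne {g : GL (Fin 2) K} {v : Fin 2 → K} (hv : v ≠ 0) : g • v ≠ 0 := by
  intro h
  apply hv
  have : g⁻¹ • (g • v) = v := inv_smul_smul g v
  rw [h] at this
  rw [← this]
  simp

theorem I_gl_le {g : GL (Fin 2) K} {J : FractionalIdeal R⁰ K} (h : ∀ i j, g i j ∈ J)
    (v : Fin 2 → K) : I R (g • v) ≤ J * I R v := by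
  rw [I_le]
  have : ∀ i, (g • v) i ∈ J * I R v := by
    intro i
    rw [glsmul_apply]
    exact (mem_coe (I := J * I R v)).1 (Submodule.add_mem _
      ((mem_coe (I := J * I R v)).2 (mul_mem_mul (h i 0) (mem0 v)))
      ((mem_coe (I := J * I R v)).2 (mul_mem_mul (h i 1) (mem1 v))))
  exact ⟨this 0, this 1⟩

theorem I_gl {g : GL (Fin 2) K} {J : FractionalIdeal R⁰ K} (hJ : J ≠ 0) (h : ∀ i j, g i j ∈ J)
    (h' : ∀ i j, g⁻¹ i j ∈ J⁻¹) (v : Fin 2 → K) : I R (g • v) = J * I R v := by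
  apply le_antisymm (I_gl_le h v)
  have h1 := I_gl_le h' (g • v)
  rw [inv_smul_smul] at h1
  calc J * I R v ≤ J * (J⁻¹ * I R (g • v)) := mul_le_mul_right h1 _
    _ = I R (g • v) := by rw [← mul_assoc, mul_inv_cancel₀ hJ, one_mul]

theorem mem_one' {x : K} : x ∈ (1 : FractionalIdeal R⁰ K) ↔ x ∈ (algebraMap R K).range := by
  rw [mem_one_iff]; rfl

/-- a matrix with entries in `R` -/
def IsInt (R : Type*) {K : Type*} [CommRing R] [Field K] [Algebra R K]
    (M : Matrix (Fin 2) (Fin 2) K) : Prop :=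
  ∀ i j, M i j ∈ (algebraMap R K).range

/-- if `v`, `v'` generate the same fractional ideal, they are in one `SL₂(R)`-orbit -/
theorem exists_sl {v v' : Fin 2 → K} (hv : v ≠ 0) (h : I R v = I R v') :
    ∃ A : Matrix.SpecialLinearGroup (Fin 2) R,
      ((A : Matrix (Fin 2) (Fin 2) R).map (algebraMap R K)).mulVec v = v' := by
  have hne := I_ne (R := R) hv
  have key : ∀ w : Fin 2 → K, I R w = I R v → ∃ u : Fin 2 → K, (∀ i, u i ∈ (I R v)⁻¹) ∧
      u 0 * w 0 + u 1 * w 1 = 1 := by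
    intro w hw
    have h1 : (1 : K) ∈ I R w * (I R v)⁻¹ := by
      rw [hw, mul_inv_cancel₀ hne]; exact one_mem_one R⁰
    unfold I at h1
    rw [add_mul, ← sup_eq_add] at h1
    obtain ⟨a, ha, b, hb, hab⟩ := (mem_add (spanSingleton R⁰ (w 0) * (I R v)⁻¹)
      (spanSingleton R⁰ (w 1) * (I R v)⁻¹) 1).1 (by rw [← sup_eq_add]; exact h1)
    obtain ⟨a', ha', rfl⟩ := mem_singleton_mul.1 ha
    obtain ⟨b', hb', rfl⟩ := mem_singleton_mul.1 hb
    refine ⟨![a', b'], ?_, ?_⟩
    · intro i; fin_cases i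
      · exact ha'
      · exact hb'
    · simp only [Matrix.cons_val_zero, Matrix.cons_val_one]
      rw [← hab]; ring
  obtain ⟨u, hu, hu1⟩ := key v rfl
  obtain ⟨u', hu', hu1'⟩ := key v' h.symm
  have hint : ∀ {x y : K}, x ∈ I R v → y ∈ (I R v)⁻¹ → x * y ∈ (algebraMap R K).range := by
    intro x y hx hy
    rw [← mem_one', ← mul_inv_cancel₀ hne]
    exact mul_mem_mul hx hy
  have hm : ∀ i, v i ∈ I R v := memi v
  have hm' : ∀ i, v' i ∈ I R v := fun i => by rw [h]; exact memi v' i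
  obtain ⟨p, hp⟩ := Subring.sub_mem _ (hint (hm' 0) (hu 0)) (neg_mem (hint (hm 1) (hu' 1)))
  obtain ⟨q, hq⟩ := Subring.sub_mem _ (hint (hm' 0) (hu 1)) (hint (hm 0) (hu' 1))
  obtain ⟨r, hr⟩ := Subring.sub_mem _ (hint (hm' 1) (hu 0)) (hint (hm 1) (hu' 0))
  obtain ⟨s, hs⟩ := Subring.sub_mem _ (hint (hm' 1) (hu 1)) (neg_mem (hint (hm 0) (hu' 0)))
  have hdet : p * s - q * r = 1 := by
    apply IsFractionRing.injective R K
    rw [map_sub, map_mul, map_mul, map_one, hp, hq, hr, hs]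
    linear_combination (u' 0 * v' 0 + u' 1 * v' 1) * hu1 + hu1'
  refine ⟨⟨!![p, q; r, s], by rw [Matrix.det_fin_two_of, hdet]⟩, ?_⟩
  ext i
  fin_cases i
  · simp only [Matrix.mulVec, dotProduct, Fin.sum_univ_two, Matrix.map_apply, Fin.zero_eta,
      Matrix.of_apply, Matrix.cons_val_zero, Matrix.cons_val_one, Matrix.cons_val', hp, hq]
    linear_combination v' 0 * hu1
  · simp only [Matrix.mulVec, dotProduct, Fin.sum_univ_two, Matrix.map_apply, Fin.mk_one,
      Matrix.of_apply, Matrix.cons_val_zero, Matrix.cons_val_one, Matrix.cons_val', hr, hs]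
    linear_combination v' 1 * hu1

/-- the matrices of `GL₂(K)` normalising `M₂(R)` -/
def GR (R K : Type*) [CommRing R] [Field K] [Algebra R K] : Subgroup (GL (Fin 2) K) where
  carrier := {g | ∀ M : Matrix (Fin 2) (Fin 2) K,
    IsInt R M ↔ IsInt R ((g : Matrix (Fin 2) (Fin 2) K) * M *
      ((g⁻¹ : GL (Fin 2) K) : Matrix (Fin 2) (Fin 2) K))}
  mul_mem' := by
    intro g h hg hh M
    rw [hh M, hg]
    simp only [Units.val_mul, _root_.mul_inv_rev, Matrix.mul_assoc]
  one_mem' := by intro M; simp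
  inv_mem' := by
    intro g hg M
    rw [hg (((g⁻¹ : GL (Fin 2) K) : Matrix (Fin 2) (Fin 2) K) * M *
      (((g⁻¹)⁻¹ : GL (Fin 2) K) : Matrix (Fin 2) (Fin 2) K))]
    have : (g : Matrix (Fin 2) (Fin 2) K) * (((g⁻¹ : GL (Fin 2) K) : Matrix (Fin 2) (Fin 2) K) * M
        * (((g⁻¹)⁻¹ : GL (Fin 2) K) : Matrix (Fin 2) (Fin 2) K)) *
        ((g⁻¹ : GL (Fin 2) K) : Matrix (Fin 2) (Fin 2) K) = M := by
      rw [inv_inv, ← Matrix.mul_assoc, ← Matrix.mul_assoc, ← Units.val_mul, mul_inv_cancel,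
        Units.val_one, Matrix.one_mul, Matrix.mul_assoc, ← Units.val_mul, mul_inv_cancel,
        Units.val_one, Matrix.mul_one]
    rw [this]

/-- the image of `SL₂(R)` in `GL₂(K)` -/
def SR (R K : Type*) [CommRing R] [Field K] [Algebra R K] : Subgroup (GL (Fin 2) K) :=
  ((Matrix.SpecialLinearGroup.toGL).comp
    (Matrix.SpecialLinearGroup.map (n := Fin 2) (algebraMap R K))).range

theorem isInt_conj {g h : Matrix (Fin 2) (Fin 2) K} {M : Matrix (Fin 2) (Fin 2) K}
    (hgh : ∀ i j k l, g i j * h k l ∈ (algebraMap R K).range) (hM : IsInt R M) :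
    IsInt R (g * M * h) := by
  intro i j
  simp only [Matrix.mul_apply, Finset.sum_mul]
  apply Subring.sum_mem
  intro a _
  apply Subring.sum_mem
  intro b _
  have : g i b * M b a * h a j = (g i b * h a j) * M b a := by ring
  rw [this]
  exact Subring.mul_mem _ (hgh _ _ _ _) (hM _ _)

theorem mem_GR {g : GL (Fin 2) K} {J : FractionalIdeal R⁰ K} (hJ : J ≠ 0)
    (h : ∀ i j, g i j ∈ J) (h' : ∀ i j, g⁻¹ i j ∈ J⁻¹) : g ∈ GR R K := by
  have hp : ∀ {x y : K}, x ∈ J → y ∈ J⁻¹ → x * y ∈ (algebraMap R K).range := by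
    intro x y hx hy
    rw [← mem_one', ← mul_inv_cancel₀ hJ]
    exact mul_mem_mul hx hy
  intro M
  constructor
  · exact isInt_conj fun i j k l => hp (h i j) (h' k l)
  · intro hM
    have h2 := isInt_conj (R := R) (g := ((g⁻¹ : GL (Fin 2) K) : Matrix (Fin 2) (Fin 2) K))
      (h := (g : Matrix (Fin 2) (Fin 2) K))
      (fun i j k l => by rw [mul_comm]; exact hp (h k l) (h' i j)) hM
    have : ((g⁻¹ : GL (Fin 2) K) : Matrix (Fin 2) (Fin 2) K) *
        ((g : Matrix (Fin 2) (Fin 2) K) * M * ((g⁻¹ : GL (Fin 2) K) : Matrix (Fin 2) (Fin 2) K))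
        * (g : Matrix (Fin 2) (Fin 2) K) = M := by
      rw [← Matrix.mul_assoc, ← Matrix.mul_assoc, ← Units.val_mul, inv_mul_cancel,
        Units.val_one, Matrix.one_mul, Matrix.mul_assoc, ← Units.val_mul, inv_mul_cancel,
        Units.val_one, Matrix.mul_one]
    rwa [this] at h2

theorem SR_entries {g : GL (Fin 2) K} (hg : g ∈ SR R K) :
    (∀ i j, g i j ∈ (1 : FractionalIdeal R⁰ K)) ∧ ∀ i j, g⁻¹ i j ∈ (1 : FractionalIdeal R⁰ K)⁻¹ := by
  obtain ⟨A, rfl⟩ := hg
  constructor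
  · intro i j
    rw [mem_one']
    exact ⟨A i j, rfl⟩
  · intro i j
    rw [inv_one, mem_one']
    rw [← map_inv]
    exact ⟨A⁻¹ i j, rfl⟩

theorem SR_le : SR R K ≤ GR R K := fun _ hg =>
  mem_GR (one_ne_zero : (1 : FractionalIdeal R⁰ K) ≠ 0) (SR_entries hg).1 (SR_entries hg).2

theorem SR_I {g : GL (Fin 2) K} (hg : g ∈ SR R K) (v : Fin 2 → K) : I R (g • v) = I R v := by
  rw [I_gl (one_ne_zero : (1 : FractionalIdeal R⁰ K) ≠ 0) (SR_entries hg).1 (SR_entries hg).2 v,
    one_mul]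

/-- every element of the normaliser multiplies the ideals `(v₀,v₁)` by a fixed ideal whose square
is principal -/
theorem GR_ideal {g : GL (Fin 2) K} (hg : g ∈ GR R K) :
    ∃ J : FractionalIdeal R⁰ K, J ≠ 0 ∧
      (∃ d : K, d ≠ 0 ∧ J * J = spanSingleton R⁰ d) ∧ ∀ v : Fin 2 → K, I R (g • v) = J * I R v := by
  set G : Matrix (Fin 2) (Fin 2) K := (g : Matrix (Fin 2) (Fin 2) K) with hG
  set H : Matrix (Fin 2) (Fin 2) K := ((g⁻¹ : GL (Fin 2) K) : Matrix (Fin 2) (Fin 2) K) with hH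
  have hGH : G * H = 1 := by rw [hG, hH, ← Units.val_mul, mul_inv_cancel, Units.val_one]
  have hHG : H * G = 1 := by rw [hG, hH, ← Units.val_mul, inv_mul_cancel, Units.val_one]
  have e : ∀ i j, H i 0 * G 0 j + H i 1 * G 1 j = (1 : Matrix (Fin 2) (Fin 2) K) i j := by
    intro i j
    rw [← hHG, Matrix.mul_apply, Fin.sum_univ_two]
  have e00 := e 0 0
  have e01 := e 0 1
  have e10 := e 1 0
  have e11 := e 1 1
  simp only [Matrix.one_apply_eq, ne_eq, zero_ne_one, not_false_eq_true, Matrix.one_apply_ne,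
    one_ne_zero] at e00 e01 e10 e11
  set d : K := G 0 0 * G 1 1 - G 0 1 * G 1 0 with hd
  have hdne : d ≠ 0 := by
    intro h0
    have h1 : (H 0 0 * H 1 1 - H 0 1 * H 1 0) * d = 1 := by
      have h2 : (H 0 0 * H 1 1 - H 0 1 * H 1 0) * d
          = (H 0 0 * G 0 0 + H 0 1 * G 1 0) * (H 1 0 * G 0 1 + H 1 1 * G 1 1)
            - (H 0 0 * G 0 1 + H 0 1 * G 1 1) * (H 1 0 * G 0 0 + H 1 1 * G 1 0) := by
        rw [hd]; ring
      rw [h2, e00, e11, e01, e10]; ring
    rw [h0, mul_zero] at h1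
    exact zero_ne_one h1
  -- entries of `G` in terms of `H`
  have g00 : G 0 0 = d * H 1 1 := by rw [hd]; linear_combination (-G 0 0) * e11 + G 0 1 * e10
  have g11 : G 1 1 = d * H 0 0 := by rw [hd]; linear_combination (-G 1 1) * e00 + G 1 0 * e01
  have g01 : G 0 1 = - (d * H 0 1) := by rw [hd]; linear_combination (-G 0 1) * e00 + G 0 0 * e01
  have g10 : G 1 0 = - (d * H 1 0) := by rw [hd]; linear_combination (-G 1 0) * e11 + G 1 1 * e10
  have hprod : ∀ k i j l, G k i * H j l ∈ (algebraMap R K).range := by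
    intro k i j l
    have h1 : IsInt R (Matrix.single i j (1 : K)) := by
      intro a b
      by_cases hab : i = a ∧ j = b
      · rw [Matrix.single_apply, if_pos hab]; exact one_mem _
      · rw [Matrix.single_apply, if_neg hab]; exact zero_mem _
    have h2 := (hg (Matrix.single i j (1 : K))).1 h1 k l
    have h3 : ((g : Matrix (Fin 2) (Fin 2) K) * Matrix.single i j (1 : K)
        * ((g⁻¹ : GL (Fin 2) K) : Matrix (Fin 2) (Fin 2) K)) k l = G k i * H j l := by
      rw [Matrix.mul_assoc, Matrix.mul_apply, Finset.sum_eq_single i]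
      · rw [Matrix.single_mul_apply_same, one_mul]
      · intro b _ hb
        rw [Matrix.single_mul_apply_of_ne _ _ _ _ _ hb, mul_zero]
      · intro h; exact absurd (Finset.mem_univ _) h
    rwa [h3] at h2
  set J : FractionalIdeal R⁰ K := I R (fun i => G i 0) + I R (fun i => G i 1) with hJ
  have hmem : ∀ i j, G i j ∈ J := by
    intro i j
    fin_cases j
    · exact (le_sup_left.trans (sup_eq_add _ _).le : I R (fun i => G i 0) ≤ J)
        (memi (fun i => G i 0) i)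
    · exact (le_sup_right.trans (sup_eq_add _ _).le : I R (fun i => G i 1) ≤ J)
        (memi (fun i => G i 1) i)
  have hJle : ∀ {L : FractionalIdeal R⁰ K}, (∀ i j, G i j ∈ L) → J ≤ L := by
    intro L hL
    rw [hJ, ← sup_eq_add, sup_le_iff, I_le, I_le]
    exact ⟨⟨hL 0 0, hL 1 0⟩, ⟨hL 0 1, hL 1 1⟩⟩
  have hJne : J ≠ 0 := by
    intro h0
    have h1 : ∀ i j, G i j = 0 := by
      intro i j
      have := hmem i j
      rwa [h0, mem_zero_iff] at this
    apply hdne
    rw [hd, h1 0 0, h1 0 1]; ring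
  have hinv : ∀ j l, H j l ∈ J⁻¹ := by
    intro j l
    have h1 : spanSingleton R⁰ (H j l) * J ≤ 1 := by
      rw [mul_comm]
      rw [hJ]
      unfold I
      simp only [add_mul, spanSingleton_mul_spanSingleton]
      simp only [← sup_eq_add, sup_le_iff, sing_le, mem_one']
      exact ⟨⟨hprod _ _ _ _, hprod _ _ _ _⟩, ⟨hprod _ _ _ _, hprod _ _ _ _⟩⟩
    rw [← sing_le]
    calc spanSingleton R⁰ (H j l) = spanSingleton R⁰ (H j l) * J * J⁻¹ := by
          rw [mul_assoc, mul_inv_cancel₀ hJne, mul_one]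
      _ ≤ 1 * J⁻¹ := mul_le_mul_left h1 _
      _ = J⁻¹ := one_mul _
  refine ⟨J, hJne, ⟨d, hdne, ?_⟩, fun v => I_gl hJne hmem hinv v⟩
  apply le_antisymm
  · have h1 : J ≤ spanSingleton R⁰ d * J⁻¹ := by
      apply hJle
      intro i j
      have hs : ∀ x ∈ J⁻¹, d * x ∈ spanSingleton R⁰ d * J⁻¹ := fun x hx =>
        mul_mem_mul (mem_spanSingleton_self _ _) hx
      have hneg : ∀ x ∈ spanSingleton R⁰ d * J⁻¹, -x ∈ spanSingleton R⁰ d * J⁻¹ := fun x hx =>
        (mem_coe (I := spanSingleton R⁰ d * J⁻¹)).1 (Submodule.neg_mem _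
          ((mem_coe (I := spanSingleton R⁰ d * J⁻¹)).2 hx))
      fin_cases i <;> fin_cases j
      · show G 0 0 ∈ _
        rw [g00]; exact hs _ (hinv _ _)
      · show G 0 1 ∈ _
        rw [g01]; exact hneg _ (hs _ (hinv _ _))
      · show G 1 0 ∈ _
        rw [g10]; exact hneg _ (hs _ (hinv _ _))
      · show G 1 1 ∈ _
        rw [g11]; exact hs _ (hinv _ _)
    calc J * J ≤ (spanSingleton R⁰ d * J⁻¹) * J := mul_le_mul_left h1 _
      _ = spanSingleton R⁰ d := by rw [mul_assoc, inv_mul_cancel₀ hJne, mul_one]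
  · rw [sing_le, hd]
    exact (mem_coe (I := J * J)).1 (Submodule.sub_mem _
      ((mem_coe (I := J * J)).2 (mul_mem_mul (hmem 0 0) (hmem 1 1)))
      ((mem_coe (I := J * J)).2 (mul_mem_mul (hmem 0 1) (hmem 1 0))))

end Pool.Agent.Q250.PG
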