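import Pool.Agent.Q250.PG.Basic

set_option linter.unusedSectionVars false

namespace Pool.Agent.Q250.PG

open FractionalIdeal Matrix
open scoped nonZeroDivisors LinearAlgebra.Projectivization

variable {R K : Type*} [CommRing R] [IsDedekindDomain R] [Field K] [Algebra R K]
  [IsFractionRing R K]

/-- every nonzero fractional ideal is of the form `(v₀,v₁)` -/
theorem exists_I {J : FractionalIdeal R⁰ K} (hJ : J ≠ 0) :
    ∃ v : Fin 2 → K, v ≠ 0 ∧ I R v = J := by
  obtain ⟨x, hx, hx0⟩ : ∃ x ∈ J, x ≠ 0 := by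
    by_contra hcon
    push Not at hcon
    exact hJ (eq_zero_iff.2 hcon)
  obtain ⟨y, hy⟩ := IsDedekindDomain.exists_add_spanSingleton_mul_eq (a := spanSingleton R⁰ x)
    (b := (1 : FractionalIdeal R⁰ K)) (c := J) (sing_le.2 hx)
    (by rw [Ne, spanSingleton_eq_zero_iff]; exact hx0) one_ne_zero
  refine ⟨![x, y], ?_, ?_⟩
  · intro h
    apply hx0
    have := congrFun h 0
    simpa using this
  · unfold I
    simp only [Matrix.cons_val_zero, Matrix.cons_val_one]
    rw [← hy, mul_one]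

theorem exists_u {v : Fin 2 → K} (hv : v ≠ 0) : ∃ u : Fin 2 → K, (∀ i, u i ∈ (I R v)⁻¹) ∧
      u 0 * v 0 + u 1 * v 1 = 1 := by
  have hne := I_ne (R := R) hv
  have h1 : (1 : K) ∈ I R v * (I R v)⁻¹ := by
    rw [mul_inv_cancel₀ hne]; exact one_mem_one R⁰
  have h2 : (1 : K) ∈ spanSingleton R⁰ (v 0) * (I R v)⁻¹ + spanSingleton R⁰ (v 1) * (I R v)⁻¹ := by
    rw [← add_mul]; exact h1
  obtain ⟨a, ha, b, hb, hab⟩ := (mem_add (spanSingleton R⁰ (v 0) * (I R v)⁻¹)
    (spanSingleton R⁰ (v 1) * (I R v)⁻¹) 1).1 h2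
  obtain ⟨a', ha', rfl⟩ := mem_singleton_mul.1 ha
  obtain ⟨b', hb', rfl⟩ := mem_singleton_mul.1 hb
  refine ⟨![a', b'], ?_, ?_⟩
  · intro i; fin_cases i
    · exact ha'
    · exact hb'
  · simp only [Matrix.cons_val_zero, Matrix.cons_val_one]
    rw [← hab]; ring

/-- every ideal with principal square is realised by an element of the normaliser -/
theorem exists_g {J : FractionalIdeal R⁰ K} (hJ : J ≠ 0) {d : K} (hd : d ≠ 0)
    (hJd : J * J = spanSingleton R⁰ d) :
    ∃ g ∈ GR R K, ∀ v : Fin 2 → K, I R (g • v) = J * I R v := by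
  obtain ⟨w, hw, rfl⟩ := exists_I hJ
  obtain ⟨u, hu, hu1⟩ := exists_u (R := R) hw
  have hJi : (I R w)⁻¹ * spanSingleton R⁰ d = I R w := by
    rw [← hJd, ← mul_assoc, inv_mul_cancel₀ hJ, one_mul]
  have hJi' : I R w * spanSingleton R⁰ d⁻¹ = (I R w)⁻¹ := by
    have h1 : spanSingleton R⁰ d * spanSingleton R⁰ d⁻¹ = 1 := by
      rw [spanSingleton_mul_spanSingleton, mul_inv_cancel₀ hd, spanSingleton_one]
    calc I R w * spanSingleton R⁰ d⁻¹
        = ((I R w)⁻¹ * spanSingleton R⁰ d) * spanSingleton R⁰ d⁻¹ := by rw [hJi]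
      _ = _ := by rw [mul_assoc, h1, mul_one]
  have hneg : ∀ {L : FractionalIdeal R⁰ K} {x : K}, x ∈ L → -x ∈ L := fun {L x} hx =>
    (mem_coe (I := L)).1 (Submodule.neg_mem _ ((mem_coe (I := L)).2 hx))
  let g : GL (Fin 2) K :=
    { val := !![w 0, -(u 1 * d); w 1, u 0 * d]
      inv := !![u 0, u 1; -(w 1 * d⁻¹), w 0 * d⁻¹]
      val_inv := by
        ext i j
        fin_cases i <;> fin_cases j <;>
          simp [Matrix.mul_apply, Fin.sum_univ_two] <;> field_simp <;> first | ring1 | linear_combination hu1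
      inv_val := by
        ext i j
        fin_cases i <;> fin_cases j <;>
          simp [Matrix.mul_apply, Fin.sum_univ_two] <;> field_simp <;> first | ring1 | linear_combination hu1 }
  have h : ∀ i j, g i j ∈ I R w := by
    intro i j
    fin_cases i <;> fin_cases j
    · exact mem0 w
    · show -(u 1 * d) ∈ I R w
      apply hneg
      rw [← hJi]; exact mul_mem_mul (hu 1) (mem_spanSingleton_self _ _)
    · exact mem1 w
    · show u 0 * d ∈ I R w
      rw [← hJi]; exact mul_mem_mul (hu 0) (mem_spanSingleton_self _ _)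
  have h' : ∀ i j, g⁻¹ i j ∈ (I R w)⁻¹ := by
    intro i j
    fin_cases i <;> fin_cases j
    · exact hu 0
    · exact hu 1
    · show -(w 1 * d⁻¹) ∈ (I R w)⁻¹
      apply hneg
      rw [← hJi']; exact mul_mem_mul (mem1 w) (mem_spanSingleton_self _ _)
    · show w 0 * d⁻¹ ∈ (I R w)⁻¹
      rw [← hJi']; exact mul_mem_mul (mem0 w) (mem_spanSingleton_self _ _)
  exact ⟨g, mem_GR hJ h h', fun v => I_gl hJ h h' v⟩

/-! ### the class map -/

/-- the ideal class of `(v₀,v₁)` -/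
noncomputable def clsv (R : Type*) {K : Type*} [CommRing R] [IsDedekindDomain R] [Field K]
    [Algebra R K] [IsFractionRing R K] (v : Fin 2 → K) (hv : v ≠ 0) : ClassGroup R :=
  ClassGroup.mk K (Units.mk0 (I R v) (I_ne hv))

theorem mk_eq_one {J : FractionalIdeal R⁰ K} (hJ : J ≠ 0) :
    ClassGroup.mk K (Units.mk0 J hJ) = 1 ↔ ∃ d : K, d ≠ 0 ∧ J = spanSingleton R⁰ d := by
  rw [ClassGroup.mk_eq_one_iff]
  show (J : Submodule R K).IsPrincipal ↔ _
  rw [isPrincipal_iff]
  constructor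
  · rintro ⟨d, hd⟩
    refine ⟨d, ?_, hd⟩
    rintro rfl
    rw [spanSingleton_zero] at hd
    exact hJ hd
  · rintro ⟨d, _, hd⟩
    exact ⟨d, hd⟩

theorem mk_eq_mk' {J J' : FractionalIdeal R⁰ K} (hJ : J ≠ 0) (hJ' : J' ≠ 0) :
    ClassGroup.mk K (Units.mk0 J hJ) = ClassGroup.mk K (Units.mk0 J' hJ') ↔
      ∃ d : K, d ≠ 0 ∧ J' = spanSingleton R⁰ d * J := by
  have h1 : ClassGroup.mk K (Units.mk0 J hJ) = ClassGroup.mk K (Units.mk0 J' hJ') ↔
      ClassGroup.mk K (Units.mk0 (J' * J⁻¹) (mul_ne_zero hJ' (inv_ne_zero hJ))) = 1 := by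
    have h2 : Units.mk0 (J' * J⁻¹) (mul_ne_zero hJ' (inv_ne_zero hJ))
        = Units.mk0 J' hJ' * (Units.mk0 J hJ)⁻¹ := by
      ext1; simp
    rw [h2, map_mul, map_inv, mul_inv_eq_one, eq_comm]
  rw [h1, mk_eq_one]
  constructor
  · rintro ⟨d, hd, h⟩
    refine ⟨d, hd, ?_⟩
    rw [← h, mul_assoc, inv_mul_cancel₀ hJ, mul_one]
  · rintro ⟨d, hd, h⟩
    refine ⟨d, hd, ?_⟩
    rw [h, mul_assoc, mul_inv_cancel₀ hJ, mul_one]

theorem clsv_smul {v : Fin 2 → K} (hv : v ≠ 0) {c : K} (hc : c ≠ 0) (hcv : c • v ≠ 0) :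
    clsv R (c • v) hcv = clsv R v hv := by
  unfold clsv
  rw [eq_comm, mk_eq_mk']
  exact ⟨c, hc, I_smul c v⟩

/-- the ideal class of a point of `ℙ¹(K)` -/
noncomputable def cls (R : Type*) {K : Type*} [CommRing R] [IsDedekindDomain R] [Field K]
    [Algebra R K] [IsFractionRing R K] (p : ℙ K (Fin 2 → K)) : ClassGroup R :=
  clsv R p.rep p.rep_nonzero

theorem cls_mk (v : Fin 2 → K) (hv : v ≠ 0) : cls R (Projectivization.mk K v hv) = clsv R v hv := by
  unfold cls
  obtain ⟨a, ha⟩ := Projectivization.exists_smul_eq_mk_rep K v hv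
  have h1 : ((a : K) • v) ≠ 0 := smul_ne_zero a.ne_zero hv
  have h2 : clsv R ((a : K) • v) h1 = clsv R v hv := clsv_smul hv a.ne_zero h1
  rw [← h2]
  congr 1
  exact ha.symm

theorem cls_surj : Function.Surjective (cls R (K := K)) := by
  intro c
  refine ClassGroup.induction K (fun J => ?_) c
  obtain ⟨v, hv, hJ⟩ := exists_I (J := (J : FractionalIdeal R⁰ K)) J.ne_zero
  refine ⟨Projectivization.mk K v hv, ?_⟩
  rw [cls_mk]
  unfold clsv
  congr 1
  ext1
  exact hJ

theorem gl_smul_mk (g : GL (Fin 2) K) (v : Fin 2 → K) (hv : v ≠ 0) :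
    g • Projectivization.mk K v hv = Projectivization.mk K (g • v) (gl_ne hv) := rfl

/-- `SL₂(R)`-orbits on `ℙ¹(K)` are classified by the class -/
theorem SR_orbit (p q : ℙ K (Fin 2 → K)) : (∃ g ∈ SR R K, g • p = q) ↔ cls R p = cls R q := by
  induction p using Projectivization.ind with
  | h v hv =>
  induction q using Projectivization.ind with
  | h w hw =>
  constructor
  · rintro ⟨g, hg, h⟩
    rw [← h, gl_smul_mk, cls_mk, cls_mk]
    unfold clsv
    congr 1
    ext1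
    exact (SR_I hg v).symm
  · intro h
    rw [cls_mk, cls_mk] at h
    unfold clsv at h
    rw [mk_eq_mk'] at h
    obtain ⟨d, hd, h⟩ := h
    rw [← I_smul] at h
    obtain ⟨A, hA⟩ := exists_sl (R := R) (v := d • v) (v' := w) (smul_ne_zero hd hv) h.symm
    refine ⟨_, ⟨A, rfl⟩, ?_⟩
    rw [gl_smul_mk, Projectivization.mk_eq_mk_iff]
    refine ⟨(Units.mk0 d hd)⁻¹, ?_⟩
    rw [← hA]
    have h2 : ((A : Matrix (Fin 2) (Fin 2) R).map (algebraMap R K)).mulVec (d • v)
        = d • ((A : Matrix (Fin 2) (Fin 2) R).map (algebraMap R K)).mulVec v :=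
      Matrix.mulVec_smul _ _ _
    rw [h2, Units.smul_def, smul_smul]
    have h3 : ((Units.mk0 d hd)⁻¹ : Kˣ).val * d = 1 := by
      simp [hd]
    rw [h3, one_smul]
    rfl

/-- orbits of the normaliser are classified by the square of the class -/
theorem GR_orbit (p q : ℙ K (Fin 2 → K)) :
    (∃ g ∈ GR R K, g • p = q) ↔ cls R p ^ 2 = cls R q ^ 2 := by
  induction p using Projectivization.ind with
  | h v hv =>
  induction q using Projectivization.ind with
  | h w hw =>
  constructor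
  · rintro ⟨g, hg, h⟩
    obtain ⟨J, hJ, ⟨d, hd, hJd⟩, hI⟩ := GR_ideal hg
    rw [← h, gl_smul_mk, cls_mk, cls_mk]
    unfold clsv
    rw [← map_pow, ← map_pow]
    have e1 : (Units.mk0 (I R v) (I_ne hv)) ^ 2 = Units.mk0 (I R v ^ 2) (pow_ne_zero 2 (I_ne hv)) := by
      ext1; simp
    have e2 : (Units.mk0 (I R (g • v)) (I_ne (gl_ne hv))) ^ 2
        = Units.mk0 (I R (g • v) ^ 2) (pow_ne_zero 2 (I_ne (gl_ne hv))) := by
      ext1; simp
    rw [e1, e2, mk_eq_mk']
    refine ⟨d, hd, ?_⟩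
    rw [hI, mul_pow, pow_two J, hJd]
  · intro h
    rw [cls_mk, cls_mk] at h
    unfold clsv at h
    rw [← map_pow, ← map_pow] at h
    have e1 : (Units.mk0 (I R v) (I_ne hv)) ^ 2 = Units.mk0 (I R v ^ 2) (pow_ne_zero 2 (I_ne hv)) := by
      ext1; simp
    have e2 : (Units.mk0 (I R w) (I_ne hw)) ^ 2
        = Units.mk0 (I R w ^ 2) (pow_ne_zero 2 (I_ne hw)) := by
      ext1; simp
    rw [e1, e2, mk_eq_mk'] at h
    obtain ⟨d, hd, h⟩ := h
    have hvI := I_ne (R := R) hv
    have hwI := I_ne (R := R) hw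
    set J : FractionalIdeal R⁰ K := I R w * (I R v)⁻¹ with hJ
    have hJne : J ≠ 0 := mul_ne_zero hwI (inv_ne_zero hvI)
    have hJJ : J * J = spanSingleton R⁰ d := by
      calc J * J = I R w ^ 2 * ((I R v)⁻¹ * (I R v)⁻¹) := by rw [hJ]; ring
        _ = spanSingleton R⁰ d * ((I R v * (I R v)⁻¹) * (I R v * (I R v)⁻¹)) := by rw [h]; ring
        _ = spanSingleton R⁰ d := by rw [mul_inv_cancel₀ hvI, one_mul, mul_one]
    obtain ⟨g, hg, hgI⟩ := exists_g hJne hd hJJ
    have h1 : I R (g • v) = I R w := by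
      rw [hgI, hJ, mul_assoc, inv_mul_cancel₀ hvI, mul_one]
    have h2 : cls R (g • Projectivization.mk K v hv) = cls R (Projectivization.mk K w hw) := by
      rw [gl_smul_mk, cls_mk, cls_mk]
      unfold clsv
      congr 1
      ext1
      exact h1
    obtain ⟨k, hk, hkq⟩ := (SR_orbit (R := R) _ _).2 h2
    refine ⟨k * g, mul_mem (SR_le hk) hg, ?_⟩
    rw [mul_smul, hkq]

/-! ### the quotients -/

/-- the orbit space of a subgroup `Γ` of `GL₂(K)` on `ℙ¹(K)` -/
abbrev OrbSp {K : Type*} [Field K] (Γ : Subgroup (GL (Fin 2) K)) : Type _ :=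
  MulAction.orbitRel.Quotient Γ (ℙ K (Fin 2 → K))

theorem orb_iff (Γ : Subgroup (GL (Fin 2) K)) (p q : ℙ K (Fin 2 → K)) :
    (MulAction.orbitRel Γ (ℙ K (Fin 2 → K))) p q ↔ ∃ g ∈ Γ, g • q = p := by
  rw [MulAction.orbitRel_apply, MulAction.mem_orbit_iff]
  constructor
  · rintro ⟨g, h⟩; exact ⟨g.1, g.2, h⟩
  · rintro ⟨g, hg, h⟩; exact ⟨⟨g, hg⟩, h⟩

theorem exists_equiv_SR : Nonempty (OrbSp (SR R K) ≃ ClassGroup R) := by
  have hl : ∀ p q : ℙ K (Fin 2 → K), (MulAction.orbitRel (SR R K) (ℙ K (Fin 2 → K))) p q →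
      cls R p = cls R q := fun p q h => ((SR_orbit q p).1 ((orb_iff _ p q).1 h)).symm
  refine ⟨Equiv.ofBijective (Quotient.lift (cls R) hl) ⟨?_, ?_⟩⟩
  · intro a b
    induction a using Quotient.inductionOn with
    | h p =>
    induction b using Quotient.inductionOn with
    | h q =>
    intro h
    exact Quotient.sound ((orb_iff _ p q).2 ((SR_orbit q p).2 (Eq.symm h)))
  · intro c
    obtain ⟨p, hp⟩ := cls_surj (R := R) (K := K) c
    exact ⟨Quotient.mk _ p, hp⟩

theorem exists_equiv_GR :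
    Nonempty (OrbSp (GR R K) ≃ (Set.range fun c : ClassGroup R => c ^ 2)) := by
  let f : ℙ K (Fin 2 → K) → (Set.range fun c : ClassGroup R => c ^ 2) := fun p =>
    ⟨cls R p ^ 2, ⟨cls R p, rfl⟩⟩
  have hl : ∀ p q : ℙ K (Fin 2 → K), (MulAction.orbitRel (GR R K) (ℙ K (Fin 2 → K))) p q →
      f p = f q := fun p q h => Subtype.ext ((GR_orbit q p).1 ((orb_iff _ p q).1 h)).symm
  refine ⟨Equiv.ofBijective (Quotient.lift f hl) ⟨?_, ?_⟩⟩
  · intro a b
    induction a using Quotient.inductionOn with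
    | h p =>
    induction b using Quotient.inductionOn with
    | h q =>
    intro h
    have h' : f p = f q := h
    exact Quotient.sound ((orb_iff _ p q).2 ((GR_orbit q p).2 (Subtype.ext_iff.1 h').symm))
  · rintro ⟨_, c, rfl⟩
    obtain ⟨p, hp⟩ := cls_surj (R := R) (K := K) c
    refine ⟨Quotient.mk _ p, ?_⟩
    apply Subtype.ext
    show cls R p ^ 2 = c ^ 2
    rw [hp]

theorem sq_surj_iff (G : Type*) [CommGroup G] [Finite G] :
    Function.Surjective (fun c : G => c ^ 2) ↔ Odd (Nat.card G) := by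
  constructor
  · intro h
    have hinj : Function.Injective (fun c : G => c ^ 2) := Finite.injective_iff_surjective.2 h
    by_contra hodd
    rw [Nat.not_odd_iff_even, even_iff_two_dvd] at hodd
    have : Fact (Nat.Prime 2) := ⟨Nat.prime_two⟩
    obtain ⟨x, hx⟩ := exists_prime_orderOf_dvd_card' (G := G) 2 hodd
    have h1 : x ^ 2 = 1 := by rw [← hx]; exact pow_orderOf_eq_one x
    have h2 : x = 1 := hinj (by simpa using h1)
    rw [h2, orderOf_one] at hx
    norm_num at hx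
  · intro h
    have hc : (Nat.card G).Coprime 2 := Nat.coprime_two_right.2 h
    exact (powCoprime hc).surjective

theorem main_iff [Finite (ClassGroup R)] :
    Nonempty (OrbSp (GR R K) ≃ OrbSp (SR R K)) ↔ Odd (Nat.card (ClassGroup R)) := by
  obtain ⟨e1⟩ := exists_equiv_SR (R := R) (K := K)
  obtain ⟨e2⟩ := exists_equiv_GR (R := R) (K := K)
  rw [← sq_surj_iff]
  constructor
  · rintro ⟨e⟩
    have h1 : Nat.card (Set.range fun c : ClassGroup R => c ^ 2) = Nat.card (ClassGroup R) :=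
      Nat.card_congr (e2.symm.trans (e.trans e1))
    rw [← Set.range_eq_univ]
    apply Set.eq_of_subset_of_ncard_le (Set.subset_univ _) _ (Set.toFinite _)
    rw [Set.ncard_univ, ← h1]
    exact le_of_eq (Nat.card_coe_set_eq _)
  · intro h
    have h1 : (Set.range fun c : ClassGroup R => c ^ 2) = Set.univ := Set.range_eq_univ.2 h
    exact ⟨e2.trans ((Equiv.setCongr h1).trans ((Equiv.Set.univ _).trans e1.symm))⟩

end Pool.Agent.Q250.PG
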